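import Mathlib
import Pool.Agent.KS6_47.ECv.H.TB

set_option autoImplicit false

namespace Pool.Agent.KS6_47.ECv

open SimpleGraph Finset

variable {V : Type*} [Fintype V] [DecidableEq V] (G : SimpleGraph V) [DecidableRel G.Adj]

/-- edges incident to a set of vertices -/
def inc (O : Finset V) : Finset (Sym2 V) := G.edgeFinset.filter (fun e => ∃ v ∈ O, v ∈ e)

/-- `S` covers all vertices of `W` -/
def Cov (S : Finset (Sym2 V)) (W : Finset V) : Prop := ∀ v ∈ W, ∃ e ∈ S, v ∈ e

instance (S : Finset (Sym2 V)) (W : Finset V) : Decidable (Cov S W) := by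
  unfold Cov; infer_instance

/-- no edge leaves `O` except to `A` -/
def Closed (A O : Finset V) : Prop := ∀ x ∈ O, ∀ y, G.Adj x y → y ∈ O ∨ y ∈ A

theorem mem_inc {O : Finset V} {e : Sym2 V} : e ∈ inc G O ↔ e ∈ G.edgeFinset ∧ ∃ v ∈ O, v ∈ e := by
  simp [inc]

theorem degree_eq (v : V) : G.degree v = (G.edgeFinset.filter (fun e => v ∈ e)).card := by
  rw [← G.card_incidenceFinset_eq_degree v, G.incidenceFinset_eq_filter v]

theorem boundary (hconn : G.Connected) {O : Finset V} (hne : O.Nonempty) (hun : O ≠ univ) :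
    ∃ a ∈ O, ∃ b, b ∉ O ∧ G.Adj a b := by
  obtain ⟨u, hu⟩ := hne
  obtain ⟨w, hw⟩ : ∃ w, w ∉ O := by
    by_contra h
    push Not at h
    exact hun (eq_univ_iff_forall.2 h)
  obtain ⟨p⟩ := hconn.preconnected u w
  obtain ⟨d, -, h1, h2⟩ := p.exists_boundary_dart (O : Set V) (by simpa using hu) (by simpa using hw)
  exact ⟨d.fst, by simpa using h1, d.snd, by simpa using h2, d.adj⟩

theorem deg_lt (hconn : G.Connected) {O : Finset V} (hne : O.Nonempty) (hun : O ≠ univ) :
    ∑ v ∈ O, G.degree v < 2 * (inc G O).card := by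
  classical
  have h1 : ∑ v ∈ O, G.degree v = ∑ e ∈ inc G O, (O.filter (fun v => v ∈ e)).card := by
    have : ∀ v ∈ O, G.degree v = ∑ e ∈ inc G O, if v ∈ e then 1 else 0 := by
      intro v hv
      rw [degree_eq, ← Finset.card_filter]
      congr 1
      ext e
      simp only [mem_filter, mem_inc]
      constructor
      · rintro ⟨h1, h2⟩; exact ⟨⟨h1, v, hv, h2⟩, h2⟩
      · rintro ⟨⟨h1, -⟩, h2⟩; exact ⟨h1, h2⟩
    rw [Finset.sum_congr rfl this, Finset.sum_comm]
    refine Finset.sum_congr rfl fun e _ => ?_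
    rw [Finset.card_filter]
  obtain ⟨a, ha, b, hb, hab⟩ := boundary G hconn hne hun
  rw [h1, mul_comm, ← smul_eq_mul, ← Finset.sum_const]
  apply Finset.sum_lt_sum
  · intro e he
    have he' : ¬ e.IsDiag := by
      have := (mem_inc G).1 he
      exact G.not_isDiag_of_mem_edgeFinset this.1
    calc (O.filter (fun v => v ∈ e)).card ≤ e.toFinset.card := by
          apply Finset.card_le_card
          intro v hv
          rw [Sym2.mem_toFinset]
          exact (mem_filter.1 hv).2
      _ = 2 := Sym2.card_toFinset_of_not_isDiag e he'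
  · refine ⟨s(a, b), ?_, ?_⟩
    · rw [mem_inc]
      exact ⟨by simpa using hab, a, ha, by simp⟩
    · have : O.filter (fun v => v ∈ s(a, b)) = {a} := by
        ext v
        simp only [mem_filter, Sym2.mem_iff, mem_singleton]
        constructor
        · rintro ⟨h1, h2 | h2⟩
          · exact h2
          · subst h2; exact absurd h1 hb
        · rintro rfl; exact ⟨ha, Or.inl rfl⟩
      rw [this]; simp

theorem inc_ge (hconn : G.Connected) (hdeg : ∀ v, 2 ≤ G.degree v) {O : Finset V}
    (hne : O.Nonempty) (hun : O ≠ univ) : O.card + 1 ≤ (inc G O).card := by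
  have h1 := deg_lt G hconn hne hun
  have h2 : O.card • 2 ≤ ∑ v ∈ O, G.degree v := Finset.card_nsmul_le_sum _ _ _ (fun v _ => hdeg v)
  rw [smul_eq_mul] at h2
  omega

theorem inc_disj {A O O' : Finset V} (hO : Closed G A O) (hd : Disjoint O O')
    (h2 : Disjoint O' A) : Disjoint (inc G O) (inc G O') := by
  rw [Finset.disjoint_left]
  intro e he he'
  obtain ⟨h3, v, hv, hve⟩ := (mem_inc G).1 he
  obtain ⟨-, w, hw, hwe⟩ := (mem_inc G).1 he'
  have hvw : v ≠ w := by
    rintro rfl
    exact (Finset.disjoint_left.1 hd hv) hw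
  have hee : e = s(v, w) := (Sym2.mem_and_mem_iff hvw).1 ⟨hve, hwe⟩
  subst hee
  have hadj : G.Adj v w := by simpa using h3
  rcases hO v hv w hadj with h | h
  · exact (Finset.disjoint_left.1 hd h) hw
  · exact (Finset.disjoint_left.1 h2 hw) h

/-- a large matching gives a small edge cover -/
theorem cover_of_matching (hdeg : ∀ v, 2 ≤ G.degree v) (U : Finset V) (m : V → V)
    (hm : ∀ x ∈ (univ : Finset V) \ U, m x ∈ (univ : Finset V) \ U ∧ m (m x) = x ∧ G.Adj x (m x)) :
    ∃ S ⊆ G.edgeFinset, Cov S univ ∧ 2 * S.card ≤ Fintype.card V + U.card := by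
  classical
  have hnb : ∀ v, ∃ w, G.Adj v w := by
    intro v
    have : 0 < G.degree v := by have := hdeg v; omega
    exact (G.degree_pos_iff_exists_adj v).1 this
  choose nb hnb using hnb
  set S1 := ((univ : Finset V) \ U).image (fun x => s(x, m x)) with hS1
  set S2 := U.image (fun x => s(x, nb x)) with hS2
  refine ⟨S1 ∪ S2, ?_, ?_, ?_⟩
  · intro e he
    rcases mem_union.1 he with h | h
    · obtain ⟨x, hx, rfl⟩ := mem_image.1 h
      simpa using (hm x hx).2.2
    · obtain ⟨x, hx, rfl⟩ := mem_image.1 h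
      simpa using hnb x
  · intro v _
    by_cases hv : v ∈ U
    · exact ⟨s(v, nb v), mem_union_right _ (mem_image_of_mem _ hv), by simp⟩
    · exact ⟨s(v, m v), mem_union_left _ (mem_image_of_mem _ (by simp [hv])), by simp⟩
  · have h1 : 2 * S1.card ≤ ((univ : Finset V) \ U).card := by
      apply Finset.mul_card_image_le_card
      intro e he
      obtain ⟨x, hx, rfl⟩ := mem_image.1 he
      obtain ⟨h1, h2, h3⟩ := hm x hx
      have hsub : ({x, m x} : Finset V) ⊆ ((univ : Finset V) \ U).filter
          (fun a => s(a, m a) = s(x, m x)) := by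
        intro a ha
        rw [mem_insert, mem_singleton] at ha
        rw [mem_filter]
        rcases ha with rfl | rfl
        · exact ⟨hx, rfl⟩
        · refine ⟨h1, ?_⟩
          rw [h2, Sym2.eq_swap]
      calc 2 = ({x, m x} : Finset V).card := by rw [Finset.card_pair h3.ne]
        _ ≤ _ := Finset.card_le_card hsub
    have h2 : S2.card ≤ U.card := Finset.card_image_le
    have h3 : (S1 ∪ S2).card ≤ S1.card + S2.card := Finset.card_union_le _ _
    have h4 : ((univ : Finset V) \ U).card + U.card = Fintype.card V := by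
      rw [Finset.card_sdiff_add_card_eq_card (subset_univ U)]; rfl
    omega

/-- Tutte–Berge for edge covers. -/
theorem tb (hconn : G.Connected) (hdeg : ∀ v, 2 ≤ G.degree v) (ρ : ℕ)
    (hρ : ∀ S ⊆ G.edgeFinset, Cov S univ → ρ ≤ S.card) (h2 : Fintype.card V + 2 ≤ 2 * ρ) :
    ∃ (A : Finset V) (F : Finset (Finset V)), A.Nonempty ∧ (∀ O ∈ F, Odd O.card) ∧
      (∀ O ∈ F, ∀ O' ∈ F, O ≠ O' → Disjoint O O') ∧ (∀ O ∈ F, Disjoint O A) ∧
      (∀ O ∈ F, Closed G A O) ∧ A.card + 2 * ρ ≤ F.card + 1 + Fintype.card V := by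
  classical
  by_contra hcon
  push Not at hcon
  obtain ⟨l, hl⟩ : ∃ l, Fintype.card V + l = 2 * ρ - 2 := ⟨2 * ρ - 2 - Fintype.card V, by omega⟩
  have heven : Even ((univ : Finset V).card + l) := by
    rw [Finset.card_univ, hl]
    exact ⟨ρ - 1, by omega⟩
  obtain ⟨U, m, -, hU, hm⟩ := H168DD.tutte_berge G univ l heven (by
    intro A F _ hodd hdisj hsub hcl
    by_contra hlt
    push Not at hlt
    have hdA : ∀ O ∈ F, Disjoint O A := by
      intro O hO
      rw [Finset.disjoint_left]
      intro x hx hxA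
      exact (mem_sdiff.1 (hsub O hO hx)).2 hxA
    have hcl' : ∀ O ∈ F, Closed G A O := fun O hO x hx y hxy => hcl O hO x hx y (mem_univ y) hxy
    rcases A.eq_empty_or_nonempty with hA | hA
    · subst hA
      have huniv : ∀ O ∈ F, O = univ := by
        intro O hO
        by_contra hne
        have hO0 : O.Nonempty := by
          rw [← Finset.card_pos]; exact (hodd O hO).pos
        obtain ⟨a, ha, b, hb, hab⟩ := boundary G hconn hO0 hne
        rcases hcl' O hO a ha b hab with h | h
        · exact hb h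
        · simp at h
      have h1 : F.card ≤ 1 := by
        rw [Finset.card_le_one]
        intro a ha b hb
        rw [huniv a ha, huniv b hb]
      rw [Finset.card_empty] at hlt
      have hl0 : l = 0 := by omega
      obtain ⟨O, hO⟩ : F.Nonempty := by rw [← Finset.card_pos]; omega
      have h3 := hodd O hO
      rw [huniv O hO] at h3
      subst hl0
      rw [add_zero] at heven
      exact (Nat.not_even_iff_odd.2 h3) heven
    · have := hcon A F hA hodd hdisj hdA hcl'
      omega)
  obtain ⟨S, hS1, hS2, hS3⟩ := cover_of_matching G hdeg U m hm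
  have := hρ S hS1 hS2
  omega

end Pool.Agent.KS6_47.ECv
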