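import Mathlib
import Pool.Agent.KS6_47.ECv.Basic

set_option autoImplicit false

namespace Pool.Agent.KS6_47.ECv

open SimpleGraph Finset

variable {V : Type*} [Fintype V] [DecidableEq V] (G : SimpleGraph V) [DecidableRel G.Adj]

theorem odd_sum (F : Finset (Finset V)) (hodd : ∀ O ∈ F, Odd O.card) :
    ∃ t, ∑ O ∈ F, O.card = 2 * t + F.card := by
  refine ⟨∑ O ∈ F, O.card / 2, ?_⟩
  rw [Finset.mul_sum, Finset.card_eq_sum_ones, ← Finset.sum_add_distrib]
  refine Finset.sum_congr rfl fun O hO => ?_
  obtain ⟨k, hk⟩ := hodd O hO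
  omega

/-- the data of an equality configuration -/
structure Conf (A : Finset V) (F : Finset (Finset V)) (ρ : ℕ) : Prop where
  neA : A.Nonempty
  odd : ∀ O ∈ F, Odd O.card
  disj : ∀ O ∈ F, ∀ O' ∈ F, O ≠ O' → Disjoint O O'
  disjA : ∀ O ∈ F, Disjoint O A
  closed : ∀ O ∈ F, Closed G A O
  inc_eq : ∀ O ∈ F, (inc G O).card = O.card + 1
  union : A ∪ F.biUnion id = univ
  cardF : F.card + Fintype.card V = A.card + 2 * ρ
  cardE : G.edgeFinset.card = 2 * ρ
  sum_inc : ∑ O ∈ F, (inc G O).card = G.edgeFinset.card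

theorem count (hconn : G.Connected) (hdeg : ∀ v, 2 ≤ G.degree v) (A : Finset V)
    (F : Finset (Finset V)) (hA : A.Nonempty) (hne : ∀ O ∈ F, O.Nonempty)
    (hdisj : ∀ O ∈ F, ∀ O' ∈ F, O ≠ O' → Disjoint O O') (hdA : ∀ O ∈ F, Disjoint O A)
    (hcl : ∀ O ∈ F, Closed G A O) :
    (∀ O ∈ F, O.card + 1 ≤ (inc G O).card) ∧ ∑ O ∈ F, (inc G O).card ≤ G.edgeFinset.card := by
  classical
  constructor
  · intro O hO
    apply inc_ge G hconn hdeg (hne O hO)
    rintro rfl
    obtain ⟨a, ha⟩ := hA
    exact (Finset.disjoint_left.1 (hdA _ hO) (mem_univ a)) ha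
  · rw [← Finset.card_biUnion]
    · apply Finset.card_le_card
      intro e he
      obtain ⟨O, -, h⟩ := mem_biUnion.1 he
      exact ((mem_inc G).1 h).1
    · intro O hO O' hO' hne'
      exact inc_disj G (hcl O hO) (hdisj O hO O' hO' hne') (hdA O' hO')

theorem card_total (A : Finset V) (F : Finset (Finset V))
    (hdisj : ∀ O ∈ F, ∀ O' ∈ F, O ≠ O' → Disjoint O O') (hdA : ∀ O ∈ F, Disjoint O A) :
    (A ∪ F.biUnion id).card = A.card + ∑ O ∈ F, O.card := by
  classical
  rw [Finset.card_union_of_disjoint, Finset.card_biUnion]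
  · rfl
  · intro O hO O' hO' h; exact hdisj O hO O' hO' h
  · rw [Finset.disjoint_biUnion_right]
    intro O hO
    exact (hdA O hO).symm

theorem struct (hconn : G.Connected) (hdeg : ∀ v, 2 ≤ G.degree v) (ρ : ℕ)
    (hρ : ∀ S ⊆ G.edgeFinset, Cov S univ → ρ ≤ S.card) (h2 : Fintype.card V + 2 ≤ 2 * ρ)
    (hm : G.edgeFinset.card ≤ 2 * ρ) :
    ∃ (A : Finset V) (F : Finset (Finset V)), Conf G A F ρ := by
  classical
  obtain ⟨A, F, hA, hodd, hdisj, hdA, hcl, hcard⟩ := tb G hconn hdeg ρ hρ h2
  have hne : ∀ O ∈ F, O.Nonempty := by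
    intro O hO
    rw [← Finset.card_pos]; exact (hodd O hO).pos
  obtain ⟨hge, hle⟩ := count G hconn hdeg A F hA hne hdisj hdA hcl
  have hsum1 : ∑ O ∈ F, (O.card + 1) ≤ ∑ O ∈ F, (inc G O).card := Finset.sum_le_sum hge
  have hsum2 : ∑ O ∈ F, (O.card + 1) = ∑ O ∈ F, O.card + F.card := by
    rw [Finset.sum_add_distrib, Finset.card_eq_sum_ones]
  obtain ⟨t, ht⟩ := odd_sum F hodd
  have htot := card_total A F hdisj hdA
  by_cases hR : A ∪ F.biUnion id = univ
  · rw [hR, Finset.card_univ] at htot
    have hF : F.card + Fintype.card V = A.card + 2 * ρ := by omega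
    have hE : G.edgeFinset.card = 2 * ρ := by omega
    have hs : ∑ O ∈ F, (inc G O).card = G.edgeFinset.card := by omega
    refine ⟨A, F, ⟨hA, hodd, hdisj, hdA, hcl, ?_, hR, hF, hE, hs⟩⟩
    have h3 : ∑ O ∈ F, (O.card + 1) = ∑ O ∈ F, (inc G O).card := by omega
    intro O hO
    exact ((Finset.sum_eq_sum_iff_of_le hge).1 h3 O hO).symm
  · set R := univ \ (A ∪ F.biUnion id) with hRdef
    have hRne : R.Nonempty := by
      rw [Finset.nonempty_iff_ne_empty]
      intro h0
      apply hR
      rw [hRdef, Finset.sdiff_eq_empty_iff_subset] at h0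
      exact Finset.univ_subset_iff.1 h0
    have hRc : R.card + (A ∪ F.biUnion id).card = Fintype.card V := by
      rw [hRdef, Finset.card_sdiff_add_card_eq_card (subset_univ _)]; rfl
    have hRF : ∀ O ∈ F, Disjoint O R := by
      intro O hO
      rw [Finset.disjoint_left]
      intro x hx hxR
      exact (mem_sdiff.1 hxR).2 (mem_union_right _ (mem_biUnion.2 ⟨O, hO, hx⟩))
    have hRA : Disjoint R A := by
      rw [Finset.disjoint_left]
      intro x hx hxA
      exact (mem_sdiff.1 hx).2 (mem_union_left _ hxA)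
    have hRcl : Closed G A R := by
      intro x hx y hxy
      by_contra hcon
      push Not at hcon
      obtain ⟨hyR, hyA⟩ := hcon
      have hy : y ∈ A ∪ F.biUnion id := by
        by_contra h; exact hyR (mem_sdiff.2 ⟨mem_univ _, h⟩)
      rcases mem_union.1 hy with h | h
      · exact hyA h
      · obtain ⟨O, hO, hyO⟩ := mem_biUnion.1 h
        rcases hcl O hO y hyO x hxy.symm with h1 | h1
        · exact (Finset.disjoint_left.1 (hRF O hO) h1) hx
        · exact (Finset.disjoint_left.1 hRA hx) h1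
    have hRnot : R ∉ F := by
      intro h
      have := hRF R h
      rw [disjoint_self] at this
      rw [Finset.bot_eq_empty] at this
      rw [this] at hRne
      exact Finset.not_nonempty_empty hRne
    set F' := insert R F with hF'
    have hne' : ∀ O ∈ F', O.Nonempty := by
      intro O hO
      rcases mem_insert.1 hO with rfl | h
      · exact hRne
      · exact hne O h
    have hdisj' : ∀ O ∈ F', ∀ O' ∈ F', O ≠ O' → Disjoint O O' := by
      intro O hO O' hO' hOO
      rcases mem_insert.1 hO with rfl | h <;> rcases mem_insert.1 hO' with rfl | h'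
      · exact absurd rfl hOO
      · exact (hRF O' h').symm
      · exact hRF O h
      · exact hdisj O h O' h' hOO
    have hdA' : ∀ O ∈ F', Disjoint O A := by
      intro O hO
      rcases mem_insert.1 hO with rfl | h
      · exact hRA
      · exact hdA O h
    have hcl' : ∀ O ∈ F', Closed G A O := by
      intro O hO
      rcases mem_insert.1 hO with rfl | h
      · exact hRcl
      · exact hcl O h
    have hcF' : F'.card = F.card + 1 := Finset.card_insert_of_notMem hRnot
    obtain ⟨hge', hle'⟩ := count G hconn hdeg A F' hA hne' hdisj' hdA' hcl'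
    have hsum1' : ∑ O ∈ F', (O.card + 1) ≤ ∑ O ∈ F', (inc G O).card := Finset.sum_le_sum hge'
    have hsum2' : ∑ O ∈ F', (O.card + 1) = ∑ O ∈ F', O.card + F'.card := by
      rw [Finset.sum_add_distrib, Finset.card_eq_sum_ones]
    have hsum3' : ∑ O ∈ F', O.card = R.card + ∑ O ∈ F, O.card := Finset.sum_insert hRnot
    have hF : F'.card + Fintype.card V = A.card + 2 * ρ := by omega
    have hE : G.edgeFinset.card = 2 * ρ := by omega
    have hRodd : Odd R.card := by
      rw [Nat.odd_iff]
      omega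
    refine ⟨A, F', ⟨hA, ?_, hdisj', hdA', hcl', ?_, ?_, hF, hE, by omega⟩⟩
    · intro O hO
      rcases mem_insert.1 hO with rfl | h
      · exact hRodd
      · exact hodd O h
    · have h3 : ∑ O ∈ F', (O.card + 1) = ∑ O ∈ F', (inc G O).card := by omega
      intro O hO
      exact ((Finset.sum_eq_sum_iff_of_le hge').1 h3 O hO).symm
    · rw [Finset.eq_univ_iff_forall]
      intro x
      by_cases hx : x ∈ R
      · exact mem_union_right _ (mem_biUnion.2 ⟨R, mem_insert_self _ _, hx⟩)
      · have : x ∈ A ∪ F.biUnion id := by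
          by_contra h; exact hx (mem_sdiff.2 ⟨mem_univ _, h⟩)
        rcases mem_union.1 this with h | h
        · exact mem_union_left _ h
        · obtain ⟨O, hO, hxO⟩ := mem_biUnion.1 h
          exact mem_union_right _ (mem_biUnion.2 ⟨O, mem_insert_of_mem hO, hxO⟩)

end Pool.Agent.KS6_47.ECv
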