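import Mathlib
import Pool.Agent.KS6_47.ECv.Struct

set_option autoImplicit false

namespace Pool.Agent.KS6_47.ECv

open SimpleGraph Finset

variable {V : Type*} [Fintype V] [DecidableEq V] (G : SimpleGraph V) [DecidableRel G.Adj]

theorem inc_singleton (v : V) : (inc G {v}).card = G.degree v := by
  rw [degree_eq]
  congr 1
  ext e
  simp [inc]

/-- the sets of edges at `O` covering `O` -/
def RO (O : Finset V) : Finset (Finset (Sym2 V)) := (inc G O).powerset.filter (fun T => Cov T O)

theorem RO_one {O : Finset V} (h1 : O.card = 1) (h2 : (inc G O).card = 2) : (RO G O).card ≤ 3 := by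
  classical
  have hsub : RO G O ⊆ (inc G O).powerset.erase ∅ := by
    intro T hT
    obtain ⟨h3, h4⟩ := mem_filter.1 hT
    refine mem_erase.2 ⟨?_, h3⟩
    rintro rfl
    obtain ⟨v, hv⟩ := Finset.card_pos.1 (by omega : 0 < O.card)
    obtain ⟨e, he, -⟩ := h4 v hv
    simp at he
  have h5 := Finset.card_le_card hsub
  rw [Finset.card_erase_of_mem (by simp), Finset.card_powerset, h2] at h5
  omega

theorem RO_three {O : Finset V} (h1 : O.card = 3) (h2 : (inc G O).card = 4) {v w : V}
    (hv : v ∈ O) (hw : w ∈ O) (hvw : v ≠ w) (dv : G.degree v = 2) (dw : G.degree w = 2) :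
    (RO G O).card ≤ 9 := by
  classical
  set I := inc G O with hI
  set Iv := G.edgeFinset.filter (fun e => v ∈ e) with hIv
  set Iw := G.edgeFinset.filter (fun e => w ∈ e) with hIw
  have cv : Iv.card = 2 := by rw [hIv, ← degree_eq, dv]
  have cw : Iw.card = 2 := by rw [hIw, ← degree_eq, dw]
  have sv : Iv ⊆ I := by
    intro e he
    rw [hI, mem_inc]
    exact ⟨(mem_filter.1 he).1, v, hv, (mem_filter.1 he).2⟩
  have sw : Iw ⊆ I := by
    intro e he
    rw [hI, mem_inc]
    exact ⟨(mem_filter.1 he).1, w, hw, (mem_filter.1 he).2⟩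
  have hne : Iv ≠ Iw := by
    intro h
    have : Iv ⊆ {s(v, w)} := by
      intro e he
      have h3 : e ∈ Iw := h ▸ he
      have h4 := (mem_filter.1 he).2
      have h5 := (mem_filter.1 h3).2
      rw [mem_singleton]
      exact (Sym2.mem_and_mem_iff hvw).1 ⟨h4, h5⟩
    have := Finset.card_le_card this
    rw [cv, card_singleton] at this
    omega
  have hne' : I \ Iv ≠ I \ Iw := by
    intro h
    apply hne
    have h3 : I \ (I \ Iv) = I \ (I \ Iw) := by rw [h]
    rwa [Finset.sdiff_sdiff_eq_self sv, Finset.sdiff_sdiff_eq_self sw] at h3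
  have c1 : (I \ Iv).card = 2 := by
    have := Finset.card_sdiff_add_card_eq_card sv
    omega
  have c2 : (I \ Iw).card = 2 := by
    have := Finset.card_sdiff_add_card_eq_card sw
    omega
  set Bad := insert ∅ (insert (I \ Iv) (insert (I \ Iw) (I.image (fun e => ({e} : Finset (Sym2 V)))))) with hBad
  have hcB : Bad.card = 7 := by
    rw [hBad, card_insert_of_notMem, card_insert_of_notMem, card_insert_of_notMem,
      card_image_of_injective _ (fun a b h => by simpa using h), h2]
    · intro h
      obtain ⟨e, -, he⟩ := mem_image.1 h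
      rw [← he] at c2; simp at c2
    · intro h
      rcases mem_insert.1 h with h | h
      · exact hne' h
      · obtain ⟨e, -, he⟩ := mem_image.1 h
        rw [← he] at c1; simp at c1
    · intro h
      rcases mem_insert.1 h with h | h
      · rw [← h] at c1; simp at c1
      · rcases mem_insert.1 h with h | h
        · rw [← h] at c2; simp at c2
        · obtain ⟨e, -, he⟩ := mem_image.1 h
          simp at he
  have hsubB : Bad ⊆ I.powerset := by
    intro T hT
    rw [mem_powerset]
    rcases mem_insert.1 hT with rfl | h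
    · simp
    rcases mem_insert.1 h with rfl | h
    · exact sdiff_subset
    rcases mem_insert.1 h with rfl | h
    · exact sdiff_subset
    obtain ⟨e, he, rfl⟩ := mem_image.1 h
    simpa using he
  have hsubR : RO G O ⊆ I.powerset := Finset.filter_subset _ _
  have hdis : Disjoint (RO G O) Bad := by
    rw [Finset.disjoint_left]
    intro T hT hB
    have hc := (mem_filter.1 hT).2
    rcases mem_insert.1 hB with rfl | h
    · obtain ⟨e, he, -⟩ := hc v hv
      simp at he
    rcases mem_insert.1 h with rfl | h
    · obtain ⟨e, he, hve⟩ := hc v hv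
      rw [mem_sdiff] at he
      apply he.2
      rw [hIv, mem_filter]
      exact ⟨((mem_inc G).1 he.1).1, hve⟩
    rcases mem_insert.1 h with rfl | h
    · obtain ⟨e, he, hve⟩ := hc w hw
      rw [mem_sdiff] at he
      apply he.2
      rw [hIw, mem_filter]
      exact ⟨((mem_inc G).1 he.1).1, hve⟩
    obtain ⟨e, he, rfl⟩ := mem_image.1 h
    have hnd : ¬ e.IsDiag := G.not_isDiag_of_mem_edgeFinset ((mem_inc G).1 he).1
    have h3 : O ⊆ e.toFinset := by
      intro u hu
      obtain ⟨f, hf, huf⟩ := hc u hu
      rw [mem_singleton] at hf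
      subst hf
      rwa [Sym2.mem_toFinset]
    have h4 := Finset.card_le_card h3
    rw [Sym2.card_toFinset_of_not_isDiag e hnd, h1] at h4
    omega
  have h3 : (RO G O ∪ Bad).card ≤ I.powerset.card := Finset.card_le_card (union_subset hsubR hsubB)
  rw [Finset.card_union_of_disjoint hdis, Finset.card_powerset, h2, hcB] at h3
  omega

theorem small_sets {A : Finset V} {F : Finset (Finset V)} {ρ : ℕ} (hconn : G.Connected)
    (hdeg : ∀ v, 2 ≤ G.degree v) (hC : Conf G A F ρ)
    (hD : (univ.filter (fun v => G.degree v = 2)).card = ρ) :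
    ∀ O ∈ F, O.card = 1 + 2 * (O.filter (fun v => G.degree v ≠ 2)).card ∧
      (O.filter (fun v => G.degree v ≠ 2)).card ≤ 1 := by
  classical
  have hne : ∀ O ∈ F, O.Nonempty := by
    intro O hO
    rw [← Finset.card_pos]; exact (hC.odd O hO).pos
  have hun : ∀ O ∈ F, O ≠ univ := by
    rintro O hO rfl
    obtain ⟨a, ha⟩ := hC.neA
    exact (Finset.disjoint_left.1 (hC.disjA _ hO) (mem_univ a)) ha
  have ht : ∀ O ∈ F, (O.filter (fun v => G.degree v ≠ 2)).card ≤ 1 := by
    intro O hO
    have h1 := deg_lt G hconn (hne O hO) (hun O hO)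
    have h2 := hC.inc_eq O hO
    have h3 : ∑ v ∈ O, (2 + if G.degree v ≠ 2 then 1 else 0) ≤ ∑ v ∈ O, G.degree v := by
      apply Finset.sum_le_sum
      intro v _
      have := hdeg v
      split_ifs with h <;> omega
    rw [Finset.sum_add_distrib, Finset.sum_const, smul_eq_mul, ← Finset.card_filter] at h3
    omega
  have hle : ∀ O ∈ F, 1 + 2 * (O.filter (fun v => G.degree v ≠ 2)).card ≤ O.card := by
    intro O hO
    have h1 := ht O hO
    have h2 := hC.odd O hO
    have h3 : 0 < O.card := Finset.card_pos.2 (hne O hO)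
    rcases Nat.eq_zero_or_pos (O.filter (fun v => G.degree v ≠ 2)).card with h0 | h0
    · omega
    · have h4 : O.card ≠ 1 := by
        intro h5
        obtain ⟨v, rfl⟩ := Finset.card_eq_one.1 h5
        have h6 := hC.inc_eq _ hO
        rw [inc_singleton, card_singleton] at h6
        obtain ⟨w, hw⟩ := Finset.card_pos.1 h0
        rw [mem_filter, mem_singleton] at hw
        obtain ⟨rfl, h7⟩ := hw
        exact h7 h6
      rw [Nat.odd_iff] at h2
      omega
  have htot := card_total A F hC.disj hC.disjA
  rw [hC.union, Finset.card_univ] at htot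
  have hH : Fintype.card V ≤ ρ + (A.card + ∑ O ∈ F, (O.filter (fun v => G.degree v ≠ 2)).card) := by
    have h1 : (univ : Finset V) ⊆ univ.filter (fun v => G.degree v = 2) ∪
        (A ∪ F.biUnion (fun O => O.filter (fun v => G.degree v ≠ 2))) := by
      intro v _
      by_cases hv : G.degree v = 2
      · exact mem_union_left _ (by simp [hv])
      · apply mem_union_right
        have : v ∈ A ∪ F.biUnion id := by rw [hC.union]; exact mem_univ v
        rcases mem_union.1 this with h | h
        · exact mem_union_left _ h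
        · obtain ⟨O, hO, hvO⟩ := mem_biUnion.1 h
          exact mem_union_right _ (mem_biUnion.2 ⟨O, hO, mem_filter.2 ⟨hvO, hv⟩⟩)
    calc Fintype.card V = (univ : Finset V).card := rfl
      _ ≤ _ := Finset.card_le_card h1
      _ ≤ _ := Finset.card_union_le _ _
      _ ≤ ρ + _ := by
        rw [hD]
        apply Nat.add_le_add_left
        exact (Finset.card_union_le _ _).trans (Nat.add_le_add_left Finset.card_biUnion_le _)
  have hs1 : ∑ O ∈ F, (1 + 2 * (O.filter (fun v => G.degree v ≠ 2)).card) =
      F.card + 2 * ∑ O ∈ F, (O.filter (fun v => G.degree v ≠ 2)).card := by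
    rw [Finset.sum_add_distrib, Finset.mul_sum, Finset.card_eq_sum_ones]
  have hs2 : ∑ O ∈ F, (1 + 2 * (O.filter (fun v => G.degree v ≠ 2)).card) ≤ ∑ O ∈ F, O.card :=
    Finset.sum_le_sum hle
  have hcF := hC.cardF
  have hs3 : ∑ O ∈ F, (1 + 2 * (O.filter (fun v => G.degree v ≠ 2)).card) = ∑ O ∈ F, O.card := by
    omega
  intro O hO
  exact ⟨((Finset.sum_eq_sum_iff_of_le hle).1 hs3 O hO).symm, ht O hO⟩

theorem RO_bound {A : Finset V} {F : Finset (Finset V)} {ρ : ℕ} (hconn : G.Connected)
    (hdeg : ∀ v, 2 ≤ G.degree v) (hC : Conf G A F ρ)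
    (hD : (univ.filter (fun v => G.degree v = 2)).card = ρ) :
    ∀ O ∈ F, (RO G O).card ≤ 3 ^ ((O.card + 1) / 2) := by
  classical
  intro O hO
  obtain ⟨h1, h2⟩ := small_sets G hconn hdeg hC hD O hO
  have h3 := hC.inc_eq O hO
  rcases Nat.eq_zero_or_pos (O.filter (fun v => G.degree v ≠ 2)).card with h0 | h0
  · have h4 : O.card = 1 := by omega
    have := RO_one G h4 (by omega)
    rw [h4]
    simpa using this
  · have h4 : O.card = 3 := by omega
    have h5 : (O.filter (fun v => G.degree v = 2)).card = 2 := by
      have := Finset.card_filter_add_card_filter_not (s := O) (fun v => G.degree v = 2)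
      have h6 : (O.filter (fun v => ¬ G.degree v = 2)).card = 1 := by
        have : (O.filter (fun v => G.degree v ≠ 2)).card = 1 := by omega
        exact this
      omega
    obtain ⟨v, w, hvw, hset⟩ := Finset.card_eq_two.1 h5
    have hv : v ∈ O.filter (fun v => G.degree v = 2) := by rw [hset]; simp
    have hw : w ∈ O.filter (fun v => G.degree v = 2) := by rw [hset]; simp
    rw [mem_filter] at hv hw
    have := RO_three G h4 (by omega) hv.1 hw.1 hvw hv.2 hw.2
    rw [h4]
    simpa using this

/-- the set of edge covers -/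
def covers : Finset (Finset (Sym2 V)) := G.edgeFinset.powerset.filter (fun S => Cov S univ)

theorem covers_lt {A : Finset V} {F : Finset (Finset V)} {ρ : ℕ} (hconn : G.Connected)
    (hdeg : ∀ v, 2 ≤ G.degree v) (hC : Conf G A F ρ)
    (hD : (univ.filter (fun v => G.degree v = 2)).card = ρ) :
    (covers G).card < 3 ^ ρ := by
  classical
  set CA := G.edgeFinset.powerset.filter (fun S => Cov S (univ \ A)) with hCA
  have hlt : (covers G).card < CA.card := by
    apply Finset.card_lt_card
    rw [Finset.ssubset_iff_of_subset]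
    · obtain ⟨s, hs⟩ := hC.neA
      refine ⟨G.edgeFinset.filter (fun e => s ∉ e), ?_, ?_⟩
      · rw [hCA, mem_filter, mem_powerset]
        refine ⟨Finset.filter_subset _ _, ?_⟩
        intro v hv
        have hvs : v ≠ s := by
          rintro rfl
          exact (mem_sdiff.1 hv).2 hs
        have h1 : 1 < (G.neighborFinset v).card := by
          rw [G.card_neighborFinset_eq_degree]; exact hdeg v
        obtain ⟨w, hw, hws⟩ := Finset.exists_mem_ne h1 s
        rw [mem_neighborFinset] at hw
        refine ⟨s(v, w), ?_, by simp⟩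
        rw [mem_filter]
        refine ⟨by simpa using hw, ?_⟩
        rw [Sym2.mem_iff]
        push Not
        exact ⟨hvs.symm, hws.symm⟩
      · intro h
        obtain ⟨e, he, hse⟩ := (mem_filter.1 h).2 s (mem_univ s)
        exact (mem_filter.1 he).2 hse
    · intro S hS
      rw [covers, mem_filter] at hS
      rw [hCA, mem_filter]
      exact ⟨hS.1, fun v _ => hS.2 v (mem_univ v)⟩
  have hE : F.biUnion (fun O => inc G O) = G.edgeFinset := by
    apply Finset.eq_of_subset_of_card_le
    · intro e he
      obtain ⟨O, -, h⟩ := mem_biUnion.1 he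
      exact ((mem_inc G).1 h).1
    · rw [Finset.card_biUnion, hC.sum_inc]
      intro O hO O' hO' hne'
      exact inc_disj G (hC.closed O hO) (hC.disj O hO O' hO' hne') (hC.disjA O' hO')
  have hle : CA.card ≤ (F.pi (fun O => RO G O)).card := by
    apply Finset.card_le_card_of_injOn (fun S => fun O _ => S ∩ inc G O)
    · intro S hS
      have hS' : S ∈ CA := hS
      rw [hCA, mem_filter, mem_powerset] at hS'
      rw [Finset.mem_coe, Finset.mem_pi]
      intro O hO
      rw [RO, mem_filter, mem_powerset]
      refine ⟨inter_subset_right, ?_⟩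
      intro v hv
      have hvA : v ∈ (univ : Finset V) \ A := by
        rw [mem_sdiff]
        exact ⟨mem_univ v, fun h => (Finset.disjoint_left.1 (hC.disjA O hO) hv) h⟩
      obtain ⟨e, he, hve⟩ := hS'.2 v hvA
      refine ⟨e, mem_inter.2 ⟨he, ?_⟩, hve⟩
      rw [mem_inc]
      exact ⟨hS'.1 he, v, hv, hve⟩
    · intro S hS S' hS' h
      have hS1 : S ∈ CA := hS
      have hS1' : S' ∈ CA := hS'
      rw [hCA, mem_filter, mem_powerset] at hS1 hS1'
      have key : ∀ T, T ⊆ G.edgeFinset → T = F.biUnion (fun O => T ∩ inc G O) := by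
        intro T hT
        ext e
        rw [mem_biUnion]
        constructor
        · intro he
          have := hT he
          rw [← hE] at this
          obtain ⟨O, hO, h1⟩ := mem_biUnion.1 this
          exact ⟨O, hO, mem_inter.2 ⟨he, h1⟩⟩
        · rintro ⟨O, -, h1⟩
          exact (mem_inter.1 h1).1
      rw [key S hS1.1, key S' hS1'.1]
      apply Finset.biUnion_congr rfl
      intro O hO
      exact congr_fun (congr_fun h O) hO
  rw [Finset.card_pi] at hle
  have hprod : ∏ O ∈ F, (RO G O).card ≤ ∏ O ∈ F, 3 ^ ((O.card + 1) / 2) :=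
    Finset.prod_le_prod' (RO_bound G hconn hdeg hC hD)
  rw [Finset.prod_pow_eq_pow_sum] at hprod
  have hsum : ∑ O ∈ F, (O.card + 1) / 2 = ρ := by
    have h1 : 2 * ∑ O ∈ F, (O.card + 1) / 2 = ∑ O ∈ F, (inc G O).card := by
      rw [Finset.mul_sum]
      refine Finset.sum_congr rfl fun O hO => ?_
      rw [hC.inc_eq O hO]
      obtain ⟨k, hk⟩ := hC.odd O hO
      omega
    have h2 := hC.sum_inc
    have h3 := hC.cardE
    omega
  rw [hsum] at hprod
  omega

end Pool.Agent.KS6_47.ECv
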